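import Pool.Agent.H37.CNT.Stmts

/-!
# Denominators of conductors: the prime-to-`p` part.  Statements of the rows of the board `cny`

Row `XXX` is a theorem `xxx_thm (h1 : S_AAA) ... : S_XXX` (hypotheses: the rows it needs, of `cny` or `cnd`)
in `Pool/Agent/H<k>/CNY/XXX.lean`, importing this file, namespace `Pool.CND`.

`I = ram 0`, `W = ram 1`, `|I| = n |W|`, `ζ : I → k ∖ 0` the tame character (`g π = ζ(g) π + ...`), `l` the last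
lower break, `C = ram l` the last nontrivial ramification group.  Result: the prime-to-`p` part of the
denominator of the conductor is the order of the automorphism group of `C` induced by `I` (conjugation).
-/

set_option autoImplicit false

namespace Pool.CND

open Finset

/-! ## Groups -/

/-- `ζ` is a character of `I` with kernel `W` -/
structure YZ {k G : Type} [Field k] [Group G] (W I : Subgroup G) (ζ : G → k) : Prop where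
  ne : ∀ g ∈ I, ζ g ≠ 0
  mul : ∀ g ∈ I, ∀ h ∈ I, ζ (g * h) = ζ g * ζ h
  ker : ∀ g ∈ I, ζ g = 1 ↔ g ∈ W

/-- `θ` is an injective additive character of `C`, with `θ(g w g⁻¹) = ζ(g) ^ t θ(w)` -/
structure YT {k G : Type} [Field k] [Group G] (I C : Subgroup G) (ζ θ : G → k) (t : ℕ) : Prop where
  add : ∀ w ∈ C, ∀ w' ∈ C, θ (w * w') = θ w + θ w'
  inj : ∀ w ∈ C, θ w = 0 → w = 1
  nrm : ∀ g ∈ I, ∀ w ∈ C, g * w * g⁻¹ ∈ C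
  act : ∀ g ∈ I, ∀ w ∈ C, θ (g * w * g⁻¹) = ζ g ^ t * θ w

/-- `g ^ r` centralises `C` for all `g ∈ I` -/
def YC {G : Type} [Group G] (I C : Subgroup G) (r : ℕ) : Prop :=
  ∀ g ∈ I, ∀ w ∈ C, g ^ r * w = w * g ^ r

/-- `g` acts on `C` semiregularly: a power of `g` centralising some `w ≠ 1` of `C` centralises `C` -/
def YS {G : Type} [Group G] (g : G) (C : Subgroup G) : Prop :=
  ∀ r : ℕ, (∃ w ∈ C, w ≠ 1 ∧ g ^ r * w = w * g ^ r) → ∀ w ∈ C, g ^ r * w = w * g ^ r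

/-- YCY: `I / W` is cyclic of order `n` (the image of `ζ` is a finite subgroup of `k ∖ 0`) -/
def S_YCY : Prop := ∀ (k G : Type) [Field k] [Group G] [Finite G] (W I : Subgroup G) (ζ : G → k)
  (n : ℕ), W ≤ I → YZ W I ζ → Nat.card I = n * Nat.card W →
  ∃ g0 ∈ I, (∀ g ∈ I, ∃ j : ℕ, ζ g = ζ g0 ^ j) ∧ ∀ r : ℕ, ζ g0 ^ r = 1 ↔ n ∣ r

/-- YCC: `θ` is injective on `C` (`θ(w⁻¹) = -θ(w)`), so `C` is commutative of exponent `p`; `ζ(g ^ r) = ζ(g) ^ r`, so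
`θ(g ^ r w g ^ (-r)) = ζ(g) ^ (r t) θ(w)` -/
def S_YCC : Prop := ∀ (p : ℕ) (k G : Type) [Field k] [Group G] [Finite G] (W I C : Subgroup G)
  (ζ θ : G → k) (t : ℕ), p.Prime → CharP k p → C ≤ W → W ≤ I → YZ W I ζ → YT I C ζ θ t →
  EA p C ∧ ∀ g ∈ I, ∀ w ∈ C, ∀ r : ℕ, g ^ r * w = w * g ^ r ↔ w = 1 ∨ ζ g ^ (r * t) = 1

/-- YCR: from `YCC` and the conclusion of `YCY` (only the order of `ζ(g0)` and `ζ(g) = ζ(g0) ^ j` are used) -/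
def S_YCR : Prop := ∀ (p : ℕ) (k G : Type) [Field k] [Group G] [Finite G] (W I C : Subgroup G)
  (ζ θ : G → k) (t n : ℕ) (g0 : G), p.Prime → CharP k p → C ≤ W → W ≤ I → C ≠ ⊥ → YZ W I ζ →
  YT I C ζ θ t → g0 ∈ I → (∀ g ∈ I, ∃ j : ℕ, ζ g = ζ g0 ^ j) → (∀ r : ℕ, ζ g0 ^ r = 1 ↔ n ∣ r) →
  (∀ r : ℕ, YC I C r ↔ n ∣ r * t) ∧ (∀ g ∈ I, YS g C) ∧ ∀ g ∈ W, ∀ w ∈ C, g * w = w * g

/-- YPM: all cycle lengths of `σ` are multiples of `d` -/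
def S_YPM : Prop := ∀ (α : Type) [Fintype α] (σ : Equiv.Perm α) (d : ℕ),
  (∀ (j : ℕ) (x : α), (σ ^ j) x = x → d ∣ j) → d ∣ Fintype.card α

/-- YOS: `YPM` for conjugation by `g0` on `{w ∈ W ∖ 1, b w = v}` and `d = n / gcd(n, v)` (`v ≥ 0`): if `g0 ^ j` commutes
with `w` then `n ∣ j v`, so `d ∣ j`; hence `n ∣ v |{w ∈ W ∖ 1, b w = v}|`; sum over the values `v` -/
def S_YOS : Prop := ∀ (G : Type) [Group G] [Fintype G] (W : Subgroup G) (b : G → ℤ) (n : ℕ)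
  (g0 : G), 1 ≤ n → (∀ w ∈ W, g0 * w * g0⁻¹ ∈ W) → (∀ w ∈ W, w ≠ 1 → b (g0 * w * g0⁻¹) = b w) →
  (∀ w ∈ W, w ≠ 1 → 0 ≤ b w) →
  (∀ (j : ℕ), ∀ w ∈ W, w ≠ 1 → g0 ^ j * w = w * g0 ^ j → (n : ℤ) ∣ j * b w) →
  (n : ℤ) ∣ sm b {g | g ∈ W ∧ g ≠ 1}

/-- YPP: every `g ∈ I` is `x y` with `x ∈ W` and `y` of order prime to `p`, both powers of `g` -/
def S_YPP : Prop := ∀ (p : ℕ) (G : Type) [Group G] [Finite G] (W I C : Subgroup G) (n e : ℕ),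
  p.Prime → C ≤ W → W ≤ I → (∃ j : ℕ, Nat.card W = p ^ j) → (∀ g ∈ I, ∀ w ∈ W, g * w * g⁻¹ ∈ W) →
  Nat.card I = n * Nat.card W → ¬ p ∣ n → (∀ g ∈ W, ∀ w ∈ C, g * w = w * g) →
  (∀ g ∈ I, ¬ p ∣ orderOf g → ∀ w ∈ C, g ^ e * w = w * g ^ e) → YC I C e

/-- YSR: `C ∖ 1` is a union of orbits of `g` of the same length, the order `e` of the automorphism (`YPM` for
conjugation by `g` on `C ∖ 1`, `d = e`): `e ∣ |C| - 1` -/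
def S_YSR : Prop := ∀ (G : Type) [Group G] [Finite G] (C : Subgroup G) (g : G),
  (∀ w ∈ C, g * w * g⁻¹ ∈ C) → C ≠ ⊥ → YS g C → ∀ w ∈ C,
  g ^ (Nat.card C - 1) * w = w * g ^ (Nat.card C - 1)

/-- YLM: number theory: `x = r c` with `p ^ a n c ∈ ℤ` and `r |W| c ∈ ℤ`, `|W| = p ^ b`, `p ∤ n` -/
def S_YLM : Prop := ∀ (p n r a b : ℕ) (c : ℚ) (z z' : ℤ), p.Prime → ¬ p ∣ n →
  ((p ^ a * n : ℕ) : ℚ) * c = z → ((r * p ^ b : ℕ) : ℚ) * c = z' →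
  ∃ y : ℤ, ((p ^ a * r : ℕ) : ℚ) * c = y

/-- YLD: number theory: `n p ^ b c = l + n s`: the prime-to-`p` part of the denominator of `c` -/
def S_YLD : Prop := ∀ (p n r b : ℕ) (l s : ℤ) (c : ℚ), p.Prime → ¬ p ∣ n → 1 ≤ n →
  ((n * p ^ b : ℕ) : ℚ) * c = l + n * s →
  ((n : ℤ) ∣ r * l → ∃ z : ℤ, ((r * p ^ b : ℕ) : ℚ) * c = z) ∧
    ((∃ (j : ℕ) (z : ℤ), ((p ^ j * r : ℕ) : ℚ) * c = z) → (n : ℤ) ∣ r * l)

/-! ## Places -/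

/-- YTH: the tame character: `EXP` for `u = π`, `x = g π`; `ζ(g) = 1` iff `g π - π` is `Ge 2` iff `g ∈ ram 1` (`RAM`, `INJ`) -/
def S_YTH : Prop := ∀ (k L G : Type) [Field k] [Field L] [Algebra k L] [Group G] (P : Place k L)
  (ρ : G →* (L ≃ₐ[k] L)) (W I : Subgroup G), (W : Set G) = ram P ρ 1 → (I : Set G) = ram P ρ 0 →
  ∃ ζ : G → k, YZ W I ζ ∧
    ∀ g ∈ I, P.Ge (ρ g P.pi - algebraMap k L (ζ g) * P.pi) 2

/-- YLC: conjugation: `g⁻¹ π = c π + Ge 2`, `c = ζ(g)⁻¹`, so with `i = b w`, `w π - π = a π ^ (i + 1) + Ge (i + 2)` (`EXP`) and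
`LON`: `w g⁻¹ π - g⁻¹ π = c a π ^ (i + 1) + Ge (i + 2)`; apply `g`: `g w g⁻¹ π - π = c a (g π) ^ (i + 1) + Ge (i + 2)` -/
def S_YLC : Prop := ∀ (k L G : Type) [Field k] [Field L] [Algebra k L] [Group G] (P : Place k L)
  (ρ : G →* (L ≃ₐ[k] L)) (W I : Subgroup G) (ζ : G → k), Function.Injective ρ →
  (W : Set G) = ram P ρ 1 → (I : Set G) = ram P ρ 0 → YZ W I ζ →
  (∀ g ∈ I, P.Ge (ρ g P.pi - algebraMap k L (ζ g) * P.pi) 2) → ∀ w ∈ W, w ≠ 1 →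
  ∃ (i : ℕ) (a : k), 1 ≤ i ∧ (i : ℤ) = P.b (ρ w) ∧ a ≠ 0 ∧ ∀ g ∈ I, P.b (ρ (g * w * g⁻¹)) = i ∧
    P.Ge (ρ (g * w * g⁻¹) P.pi - P.pi - algebraMap k L (ζ g ^ i * a) * P.pi ^ (i + 1)) (i + 2)

/-- YTA: the last ramification group with `θ(w) = a` (`w π - π = a π ^ (l + 1) + Ge (l + 2)`, `θ(1) = 0`): from `YLC`, `LON`,
`INJ`; if `θ(w) + θ(w') = 0` then `w w' π - π` is `Ge (l + 2)`, so `w w' = 1` -/
def S_YTA : Prop := ∀ (k L G : Type) [Field k] [Field L] [Algebra k L] [Group G] (P : Place k L)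
  (ρ : G →* (L ≃ₐ[k] L)) (W I : Subgroup G) (ζ : G → k) (t : ℕ), Function.Injective ρ →
  (W : Set G) = ram P ρ 1 → (I : Set G) = ram P ρ 0 → YZ W I ζ →
  (∀ g ∈ I, P.Ge (ρ g P.pi - algebraMap k L (ζ g) * P.pi) 2) →
  IsLst (fun g => P.b (ρ g)) W t → ∃ (C : Subgroup G) (θ : G → k),
    (∀ w, w ∈ C ↔ w ∈ W ∧ (w = 1 ∨ P.b (ρ w) = t)) ∧ YT I C ζ θ t

/-- YDV: `∑_{w ∈ W ∖ 1} b w` is divisible by `n`: `YOS`; if `g0 ^ j` commutes with `w` then by `YLC` for `g = g0 ^ j`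
`ζ(g0) ^ (j b w) a = a`, so `n ∣ j b w` -/
def S_YDV : Prop := ∀ (k L G : Type) [Field k] [Field L] [Algebra k L] [Group G] [Fintype G]
  (P : Place k L) (ρ : G →* (L ≃ₐ[k] L)) (W I : Subgroup G) (ζ : G → k) (n : ℕ) (g0 : G),
  Function.Injective ρ → (W : Set G) = ram P ρ 1 → (I : Set G) = ram P ρ 0 → YZ W I ζ →
  (∀ g ∈ I, P.Ge (ρ g P.pi - algebraMap k L (ζ g) * P.pi) 2) → 1 ≤ n → g0 ∈ I →
  (∀ r : ℕ, ζ g0 ^ r = 1 ↔ n ∣ r) →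
  (n : ℤ) ∣ sm (fun g => P.b (ρ g)) {g | g ∈ W ∧ g ≠ 1}

/-- inertia data of a conductor `c ≠ 0` -/
structure YD (p : ℕ) {G : Type} [Group G] (W I C : Subgroup G) (c : ℚ) : Prop where
  CW : C ≤ W
  WI : W ≤ I
  ne : C ≠ ⊥
  ea : EA p C
  cardW : ∃ j : ℕ, Nat.card W = p ^ j
  cardI : ∃ n : ℕ, ¬ p ∣ n ∧ Nat.card I = n * Nat.card W
  nrmW : ∀ g ∈ I, ∀ w ∈ W, g * w * g⁻¹ ∈ W
  nrmC : ∀ g ∈ I, ∀ w ∈ C, g * w * g⁻¹ ∈ C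
  cen : ∀ g ∈ W, ∀ w ∈ C, g * w = w * g
  semi : ∀ g ∈ I, YS g C
  /-- the prime-to-`p` part of the denominator -/
  den : ∀ r : ℕ, YC I C r ↔ ∃ (j : ℕ) (z : ℤ), ((p ^ j * r : ℕ) : ℚ) * c = z
  /-- a multiple of the denominator -/
  mul : ∀ (A : Subgroup G) (d r : ℕ), A ≤ W → EA p A → Nat.card W = p ^ d * Nat.card A → YC I C r →
    (∃ z : ℤ, ((p ^ d * r : ℕ) : ℚ) * c = z) ∧
      (p = 2 → 1 ≤ d → ∃ z : ℤ, ((2 ^ (d - 1) * r : ℕ) : ℚ) * c = z)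

/-- YLO: local theorem: `WLD`, `UMW`, `HBP`, `CON`, `IND`, `RAM`, and `YTH`, `YCY`, `YTA`, `YCC`, `YCR`, `YDV`, `YLM`,
`YLD`; `C = ram l` by `RAM` -/
def S_YLO : Prop := ∀ (p : ℕ) (k L G : Type) [Field k] [Field L] [Algebra k L] [Group G]
  [Finite G] (P : Place k L) (ρ : G →* (L ≃ₐ[k] L)) (c : ℚ), p.Prime → CharP k p →
  Function.Injective ρ → IsConductor P ρ c → c = 0 ∨ ∃ (W I C : Subgroup G) (l : ℕ),
    (W : Set G) = ram P ρ 1 ∧ (I : Set G) = ram P ρ 0 ∧ (C : Set G) = ram P ρ l ∧ 1 ≤ l ∧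
    ram P ρ (l + 1) = {1} ∧ YD p W I C c

/-- YT1: the conductors of covers: `YLO` -/
def S_YT1 : Prop := ∀ (p : ℕ) (k G : Type) [Field k] [Group G] [Finite G], p.Prime → CharP k p →
  ∀ c ∈ Cond k G, c = 0 ∨ ∃ W I C : Subgroup G, YD p W I C c

/-- YT2: the divisor theorem: `YT1`, `SYG`, `YPP` (with `semi`), `NGD` -/
def S_YT2 : Prop := ∀ (p : ℕ) (k G : Type) [Field k] [Group G] [Finite G] (A : Subgroup G)
  (d m e : ℕ), p.Prime → CharP k p → EA p A → ¬ p ∣ m → Nat.card G = p ^ d * Nat.card A * m →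
  1 ≤ e →
  (∀ (g : G) (C : Subgroup G), ¬ p ∣ orderOf g → C ≠ ⊥ → EA p C → (∀ w ∈ C, g * w * g⁻¹ ∈ C) →
    YS g C → ∀ w ∈ C, g ^ e * w = w * g ^ e) →
  (∀ c ∈ Cond k G, (∃ z : ℤ, ((p ^ d * e : ℕ) : ℚ) * c = z) ∧
    (p = 2 → 1 ≤ d → ∃ z : ℤ, ((2 ^ (d - 1) * e : ℕ) : ℚ) * c = z)) ∧
  NG k G ∣ p ^ d * e ∧ (p = 2 → 1 ≤ d → NG k G ∣ 2 ^ (d - 1) * e)

/-- YT3: bound by the `p`-rank `s`: `YT2`, `YSR` for `e = lcm (p ^ f - 1, 1 ≤ f ≤ s)` (`|C| = p ^ f` with `1 ≤ f ≤ s`) -/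
def S_YT3 : Prop := ∀ (p : ℕ) (k G : Type) [Field k] [Group G] [Finite G] (A : Subgroup G)
  (d m s : ℕ), p.Prime → CharP k p → EA p A → ¬ p ∣ m → Nat.card G = p ^ d * Nat.card A * m →
  (∀ C : Subgroup G, EA p C → Nat.card C ≤ p ^ s) →
  NG k G ∣ p ^ d * (Icc 1 s).lcm (fun f => p ^ f - 1) ∧
    (p = 2 → 1 ≤ d → NG k G ∣ 2 ^ (d - 1) * (Icc 1 s).lcm (fun f => p ^ f - 1))

/-- YT4: the prime-to-`p` part of `N_G` exactly: `YLO`, `PUN`, `NGD`.  Left to right: the conductor `c` with last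
break `l` (not `0`) is in `Cond`, `N_G c` is an integer, so `p ^ j r c` is one: `den` (`ram` is decreasing, so the `l` of
`YLO` is this `l`).  Right to left: `mul` for `A = ⊥`: `|W| r c` is an integer, `|W| ∣ p ^ J`, `J` with `|G| = p ^ J m`. -/
def S_YT4 : Prop := ∀ (p : ℕ) (k G : Type) [Field k] [Group G] [Finite G] (r : ℕ), p.Prime →
  CharP k p → 1 ≤ r → ((∃ j : ℕ, NG k G ∣ p ^ j * r) ↔
    ∀ (L : Type) [Field L] [Algebra k L] (ρ : G →* (L ≃ₐ[k] L)) (t : L) (P : Place k L) (l : ℕ),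
    IsCover ρ t → P.ord t < 0 → 1 ≤ l → ram P ρ l ≠ {1} → ram P ρ (l + 1) = {1} →
    ∀ g ∈ ram P ρ 0, ∀ w ∈ ram P ρ l, g ^ r * w = w * g ^ r)

end Pool.CND
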