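import Pool.Agent.H90.CNY.Stmts

/-! # Board cny, row YCY -/

set_option autoImplicit false

namespace Pool.CND

theorem ycy_thm2 : S_YCY := by
  intro k G _ _ _ W I ζ n hWI hZ hn
  classical
  have hζ1 : ζ 1 = 1 := (hZ.ker 1 I.one_mem).2 W.one_mem
  let φ : I →* kˣ :=
    { toFun := fun g => Units.mk0 (ζ g) (hZ.ne g g.2)
      map_one' := by ext; simpa using hζ1
      map_mul' := fun g h => by ext; simpa using hZ.mul g g.2 h h.2 }
  have hφ : ∀ g : I, ((φ g : kˣ) : k) = ζ g := fun g => rfl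
  have hker : φ.ker = W.subgroupOf I := by
    ext g
    rw [MonoidHom.mem_ker, Subgroup.mem_subgroupOf, ← hZ.ker g g.2, ← hφ, Units.val_eq_one]
  have hcW : 0 < Nat.card W := Nat.card_pos
  have hkc : Nat.card φ.ker = Nat.card W := by
    rw [hker]
    exact Nat.card_congr (Subgroup.subgroupOfEquivOfLe hWI).toEquiv
  have hrc : Nat.card φ.range = n := by
    have h1 := Subgroup.card_eq_card_quotient_mul_card_subgroup φ.ker
    rw [Nat.card_congr (QuotientGroup.quotientKerEquivRange φ).toEquiv, hkc, hn] at h1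
    exact (Nat.eq_of_mul_eq_mul_right hcW h1).symm
  haveI : Finite φ.range := Set.finite_range φ |>.to_subtype
  obtain ⟨⟨u, hu⟩, hgen⟩ := IsCyclic.exists_generator (α := φ.range)
  obtain ⟨g0, rfl⟩ := hu
  have hord : orderOf (φ g0) = n := by
    have h2 : orderOf (⟨φ g0, ⟨g0, rfl⟩⟩ : φ.range) = Nat.card φ.range :=
      orderOf_eq_card_of_forall_mem_zpowers hgen
    rw [← hrc, ← h2, ← Subgroup.orderOf_coe]
  refine ⟨g0, g0.2, ?_, ?_⟩
  · intro g hg
    have h3 := hgen ⟨φ ⟨g, hg⟩, ⟨⟨g, hg⟩, rfl⟩⟩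
    haveI : Finite (φ.range) := inferInstance
    rw [← mem_powers_iff_mem_zpowers] at h3
    obtain ⟨j, hj⟩ := h3
    refine ⟨j, ?_⟩
    have h4 := congrArg (fun x : φ.range => ((x : kˣ) : k)) hj
    simpa [hφ] using h4.symm
  · intro r
    rw [← hord, orderOf_dvd_iff_pow_eq_one, ← hφ g0, ← Units.val_pow_eq_pow_val,
      Units.val_eq_one]

end Pool.CND
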