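import Pool.Agent.H37.CND2.All
import Pool.Agent.H2.CNT.PUL
import Pool.Agent.H65.CNT.PU1
import Pool.Agent.H17.CNT.PU2
import Pool.Agent.H40.CNT.PU3
import Pool.Agent.H2.CNT.PU4
import Pool.Agent.H50.CNT.RSP
import Pool.Agent.H42.CNT.PUN
import Pool.Agent.H45.CNE.SLX
import Pool.Agent.H78.CNP.RMX
import Pool.Agent.H1.CNY.YLM
import Pool.Agent.H18.CNY.YPM
import Pool.Agent.H18.CNY.YTH
import Pool.Agent.H29.CNY.YT2
import Pool.Agent.H45.CNY.YOS
import Pool.Agent.H51.CNY.YCC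
import Pool.Agent.H55.CNY.YPP
import Pool.Agent.H65.CNY.YSR
import Pool.Agent.H70.CNY.YT1
import Pool.Agent.H71.CNY.YDV
import Pool.Agent.H74.CNY.YLC
import Pool.Agent.H74.CNY.YLD
import Pool.Agent.H99.CNY.YLO
import Pool.Agent.H46.CNY.YTA
import Pool.Agent.H46.CNY.YT3
import Pool.Agent.H46.CNY.YT4
import Pool.Agent.H78.CNP.WAP
import Pool.Agent.H14.CNY.YCR
import Pool.Agent.H90.CNY.YCY

/-!
# Denominators of conductors, the prime-to-`p` part: the rows of the board cny, closed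
-/

set_option autoImplicit false

namespace Pool.CND

theorem rywap : S_WAP := _root_.Pool.CND.wap_thm
theorem ryrmx : S_RMX := _root_.Pool.CND.rmx_thm rywap
theorem ryslx : S_SLX := _root_.Pool.CND.slx_thm
theorem ryrsp : S_RSP := _root_.Pool.CND.rsp_thm
theorem rypu1 : S_PU1 := _root_.Pool.CND.pu1_thm
theorem rypu2 : S_PU2 := _root_.Pool.CND.pu2_thm
theorem rypu3 : S_PU3 := _root_.Pool.CND.pu3_thm ryrsp
theorem rypu4 : S_PU4 := _root_.Pool.CND.pu4_thm rvec rram rinj rlo2 rwpg rtmo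
theorem rypul : S_PUL := _root_.Pool.CND.pul_thm rypu1 rypu2 rypu3 rypu4 ryrmx ryslx
theorem rypun : S_PUN := _root_.Pool.CND.pun_thm rypul rupa
theorem rylm : S_YLM := _root_.Pool.CND.ylm_thm
theorem ryld : S_YLD := _root_.Pool.CND.yld_thm
theorem rypm : S_YPM := _root_.Pool.CND.ypm_thm
theorem ryth : S_YTH := _root_.Pool.CND.yth_thm rexp rlon
theorem ryos : S_YOS := _root_.Pool.CND.yos_thm rypm
theorem rycc : S_YCC := _root_.Pool.CND.ycc_thm
theorem rypp : S_YPP := _root_.Pool.CND.ypp_thm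
theorem rysr : S_YSR := _root_.Pool.CND.ysr_thm rypm
theorem rylc : S_YLC := _root_.Pool.CND.ylc_thm rexp rlon rram rinj
theorem rydv : S_YDV := _root_.Pool.CND.ydv_thm rylc ryos
theorem ryta : S_YTA := _root_.Pool.CND.yta_thm rylc rlon rram rinj rumw
theorem rycy : S_YCY := _root_.Pool.CND.ycy_thm2
theorem rycr : S_YCR := _root_.Pool.CND.ycr_thm rycc
theorem rylo : S_YLO :=
  _root_.Pool.CND.ylo_thm rwld rumw rhbp rcon rind rram ryth rycy ryta rycc rycr rydv rylm ryld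
theorem ryt1 : S_YT1 := _root_.Pool.CND.yt1_thm rylo
theorem ryt2 : S_YT2 := _root_.Pool.CND.yt2_thm ryt1 rsyg rypp rngd
theorem ryt3 : S_YT3 := _root_.Pool.CND.yt3_thm ryt2 rysr
theorem ryt4 : S_YT4 := _root_.Pool.CND.yt4_thm rylo rypun rngd

end Pool.CND
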